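import Pool.Agent.Q81.CiTrans

/-! MP_96c727_ag, Q1 (disproof). Definitions: `Pool/Agent/Q81/CiDef2.lean`. -/

namespace Pool.Agent.Results.MP_96c727_ag.LowDegreePointsNotCut

open Pool.Agent.Q81.CiD

/-- Every point of degree `k * d_1 ⋯ d_e` on the universal complete intersection `X_{n,d}` arises
from a complete intersection with a degree `k` variety of dimension `e`. -/
def AllArise (n k e : ℕ) (d : Fin e → ℕ) : Prop :=
  ∀ P : ClosedPt (KB (n + e) d) (n + e), P.OnX → P.degree = k * ∏ i, d i → P.Arises k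

/-- There is a constant `δ(n, k)` as in Q1. -/
def HasBound (n k : ℕ) : Prop :=
  ∃ δ : ℕ, ∀ (e : ℕ) (d : Fin e → ℕ), 0 < e → (∀ i, 0 < d i) → δ ≤ ∑ i, d i → AllArise n k e d

/-- The statement of Q1. -/
def Q1 : Prop := ∀ n k : ℕ, 0 < n → 0 < k → HasBound n k

/-- The universal complete intersection `X_{n,d}` has a point of degree `k * d_1 ⋯ d_e` lying on no
integral closed subvariety of dimension `e` and degree `k`. -/
def BadPoint (n k e : ℕ) (d : Fin e → ℕ) : Prop :=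
  ∃ P : ClosedPt (KB (n + e) d) (n + e), P.OnX ∧ P.degree = k * ∏ i, d i ∧
    ∀ Z : IntSub (KB (n + e) d) (n + e) e k, ¬ Z.Contains P

theorem strong (n D : ℕ) (hn : 4 ≤ n) (hD : 2 ≤ D) : BadPoint n 2 2 ![2, D] := by
  obtain ⟨P, h1, h2, h3⟩ := exists_pt (n + 2) D (by omega) hD
  refine ⟨P, h1, ?_, fun Z hZ => ?_⟩
  · rw [h2, Fin.prod_univ_two]
    rfl
  · exact absurd (h3.trans (six_of_intSub Z P hZ)) (by norm_num)

theorem not_bound (n : ℕ) (hn : 4 ≤ n) : ¬ HasBound n 2 := by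
  rintro ⟨δ, hδ⟩
  obtain ⟨P, h1, h2, h3⟩ := strong n (δ + 2) hn (by omega)
  obtain ⟨Z, hZ⟩ := hδ 2 ![2, δ + 2] (by norm_num) (by
    intro i
    fin_cases i
    · exact Nat.succ_pos 1
    · exact Nat.succ_pos _) (by
    rw [Fin.sum_univ_two]
    change δ ≤ 2 + (δ + 2)
    omega) P h1 h2
  exact h3 Z (((hZ P).2 fun _ _ _ => Iff.rfl).1)

/-- **Q1 is false.** For every `n ≥ 4` and `D ≥ 2` the universal complete intersection
`X_{n,(2,D)} ⊂ P^{n+2}` has a closed point of degree `2 · 2 · D` lying on no integral surface of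
degree `2`; so for `k = 2` and every `n ≥ 4` there is no constant `δ(n, 2)`. -/
theorem result :
    (∀ n D : ℕ, 4 ≤ n → 2 ≤ D → BadPoint n 2 2 ![2, D]) ∧ (∀ n : ℕ, 4 ≤ n → ¬ HasBound n 2) ∧
    ¬ Q1 :=
  ⟨strong, not_bound, fun h => not_bound 4 le_rfl (h 4 2 (by norm_num) (by norm_num))⟩

end Pool.Agent.Results.MP_96c727_ag.LowDegreePointsNotCut
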